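import Pool.Agent.helper8.GD.Spec

set_option autoImplicit false

namespace GD

open Finset

theorem SL4_Ex_prod (Q : Finset ℕ) (f g : ℕ → ℝ) :
    Ex Q (fun A => ∏ l ∈ Q, if l ∈ A then f l else g l) =
      ∏ l ∈ Q, (2 / (l : ℝ) * f l + (1 - 2 / (l : ℝ)) * g l) := by
  rw [Finset.prod_add]
  unfold Ex
  refine sum_congr rfl fun A hA => ?_
  rw [mem_powerset] at hA
  have h1 : (∏ l ∈ Q, if l ∈ A then f l else g l) = (∏ l ∈ A, f l) * ∏ l ∈ Q \ A, g l := by
    rw [← prod_sdiff hA, mul_comm]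
    congr 1
    · exact prod_congr rfl fun l hl => if_pos hl
    · exact prod_congr rfl fun l hl => if_neg (mem_sdiff.1 hl).2
  show _ * (∏ l ∈ Q, if l ∈ A then f l else g l) = _
  rw [h1, prod_mul_distrib, prod_mul_distrib]
  ring

theorem SL4_Ex_congr (Q : Finset ℕ) {F G : Finset ℕ → ℝ} (h : ∀ A ⊆ Q, F A = G A) :
    Ex Q F = Ex Q G := by
  unfold Ex
  refine sum_congr rfl fun A hA => ?_
  rw [h A (mem_powerset.1 hA)]

theorem SL4_ch (Q K A : Finset ℕ) (hK : K ⊆ Q) :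
    ch K A = ∏ l ∈ Q, if l ∈ A then (if l ∈ K then 1 - (l : ℝ) / 2 else 1) else 1 := by
  unfold ch
  rw [← prod_sdiff hK]
  have h1 : (∏ l ∈ Q \ K, if l ∈ A then (if l ∈ K then 1 - (l : ℝ) / 2 else 1) else 1) = 1 := by
    refine prod_eq_one fun l hl => ?_
    rw [if_neg (mem_sdiff.1 hl).2]
    split_ifs <;> rfl
  rw [h1, one_mul]
  refine prod_congr rfl fun l hl => ?_
  rw [if_pos hl]

theorem SL4_hh (K : Finset ℕ) : (hh K)⁻¹ = ∏ l ∈ K, ((l : ℝ) - 2) / 2 := by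
  unfold hh
  rw [← prod_inv_distrib]
  refine prod_congr rfl fun l _ => ?_
  rw [inv_div]

theorem SL4_hh_ne {K : Finset ℕ} (h : ∀ l ∈ K, 7 ≤ l) : hh K ≠ 0 := by
  unfold hh
  refine prod_ne_zero_iff.2 fun l hl => ?_
  have : (7 : ℝ) ≤ l := by exact_mod_cast h l hl
  have h2 : (0 : ℝ) < (l : ℝ) - 2 := by linarith
  positivity

/-- General orthogonality: `g l = 1` except possibly at `l₀`. -/
theorem SL4_orth (Q K K' : Finset ℕ) (g : ℕ → ℝ) (hQ : ∀ l ∈ Q, 7 ≤ l) (hK : K ⊆ Q) (hK' : K' ⊆ Q)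
    (hg : ∀ l ∈ K ∪ K', g l = 1) :
    Ex Q (fun A => (∏ l ∈ Q, if l ∈ A then 1 else g l) * (ch K A * ch K' A)) =
      (if K = K' then (hh K)⁻¹ else 0) *
        ∏ l ∈ Q \ (K ∪ K'), (2 / (l : ℝ) + (1 - 2 / (l : ℝ)) * g l) := by
  have h1 : Ex Q (fun A => (∏ l ∈ Q, if l ∈ A then 1 else g l) * (ch K A * ch K' A)) =
      Ex Q (fun A => ∏ l ∈ Q, if l ∈ A then
        ((if l ∈ K then 1 - (l : ℝ) / 2 else 1) * (if l ∈ K' then 1 - (l : ℝ) / 2 else 1))
        else g l) := by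
    refine SL4_Ex_congr Q fun A _ => ?_
    rw [SL4_ch Q K A hK, SL4_ch Q K' A hK', ← prod_mul_distrib, ← prod_mul_distrib]
    refine prod_congr rfl fun l _ => ?_
    by_cases hl : l ∈ A
    · simp only [if_pos hl, one_mul]
    · simp only [if_neg hl, mul_one]
  rw [h1, SL4_Ex_prod, ← prod_sdiff (union_subset hK hK'), mul_comm]
  congr 1
  · by_cases hKK : K = K'
    · subst hKK
      rw [if_pos rfl, SL4_hh, union_self]
      refine prod_congr rfl fun l hl => ?_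
      have h7 : (7 : ℝ) ≤ l := by exact_mod_cast hQ l (hK hl)
      have hl0 : (l : ℝ) ≠ 0 := by positivity
      rw [hg l (mem_union_left _ hl), if_pos hl]
      field_simp
      ring
    · rw [if_neg hKK]
      obtain ⟨l, hl⟩ : ∃ l, (l ∈ K ∧ l ∉ K') ∨ (l ∉ K ∧ l ∈ K') := by
        by_contra hcon
        push Not at hcon
        refine hKK (Finset.ext fun l => ⟨fun h => (hcon l).1 h, fun h => ?_⟩)
        by_contra h2
        exact (hcon l).2 h2 h
      have hlu : l ∈ K ∪ K' := by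
        rw [mem_union]
        tauto
      refine prod_eq_zero hlu ?_
      have hlQ : l ∈ Q := union_subset hK hK' hlu
      have h7 : (7 : ℝ) ≤ l := by exact_mod_cast hQ l hlQ
      have hl0 : (l : ℝ) ≠ 0 := by positivity
      rw [hg l hlu]
      rcases hl with ⟨h2, h3⟩ | ⟨h2, h3⟩
      · rw [if_pos h2, if_neg h3]
        field_simp
        ring
      · rw [if_neg h2, if_pos h3]
        field_simp
        ring
  · refine prod_congr rfl fun l hl => ?_
    have h2 := (mem_sdiff.1 hl).2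
    rw [mem_union, not_or] at h2
    rw [if_neg h2.1, if_neg h2.2]
    ring

theorem SL4_lin (Q : Finset ℕ) (S : Finset (Finset ℕ)) (W : Finset ℕ → ℝ) :
    Ex Q (fun A => W A * (∑ K ∈ S, ch K A * hh K) ^ 2) =
      ∑ K ∈ S, ∑ K' ∈ S, hh K * hh K' * Ex Q (fun A => W A * (ch K A * ch K' A)) := by
  unfold Ex
  simp_rw [mul_sum]
  have : ∀ A : Finset ℕ, (∑ K ∈ S, ch K A * hh K) ^ 2 =
      ∑ K ∈ S, ∑ K' ∈ S, (ch K A * hh K) * (ch K' A * hh K') := by
    intro A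
    rw [sq, sum_mul_sum]
  simp_rw [this, mul_sum]
  rw [sum_comm]
  refine sum_congr rfl fun K _ => ?_
  rw [sum_comm]
  refine sum_congr rfl fun K' _ => sum_congr rfl fun A _ => ?_
  ring

theorem SL4_total (Q : Finset ℕ) (S : Finset (Finset ℕ)) (g : ℕ → ℝ) (c : ℝ)
    (hQ : ∀ l ∈ Q, 7 ≤ l) (hS : ∀ K ∈ S, K ⊆ Q ∧ (∀ l ∈ K, g l = 1) ∧
      ∏ l ∈ Q \ K, (2 / (l : ℝ) + (1 - 2 / (l : ℝ)) * g l) = c) :
    Ex Q (fun A => (∏ l ∈ Q, if l ∈ A then 1 else g l) * (∑ K ∈ S, ch K A * hh K) ^ 2) =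
      c * ∑ K ∈ S, hh K := by
  rw [SL4_lin, mul_sum]
  refine sum_congr rfl fun K hK => ?_
  have h1 : ∀ K' ∈ S, K' ≠ K → hh K * hh K' *
      Ex Q (fun A => (∏ l ∈ Q, if l ∈ A then 1 else g l) * (ch K A * ch K' A)) = 0 := by
    intro K' hK' hne
    rw [SL4_orth Q K K' g hQ (hS K hK).1 (hS K' hK').1, if_neg (Ne.symm hne)]
    · ring
    · intro l hl
      rcases mem_union.1 hl with h | h
      · exact (hS K hK).2.1 l h
      · exact (hS K' hK').2.1 l h
  rw [sum_eq_single_of_mem K hK h1, SL4_orth Q K K g hQ (hS K hK).1 (hS K hK).1, if_pos rfl,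
    union_self, (hS K hK).2.2]
  · have := SL4_hh_ne fun l hl => hQ l ((hS K hK).1 hl)
    field_simp
  · intro l hl
    rw [union_self] at hl
    exact (hS K hK).2.1 l hl

theorem SL4_Sg_mem (Q : Finset ℕ) (R : ℝ) (A : Finset ℕ) (l₀ : ℕ) (hl : l₀ ∈ Q) (hA : l₀ ∈ A)
    (h7 : 7 ≤ l₀) :
    Sg Q R A = ∑ K ∈ (Q.erase l₀).powerset.filter
      (fun K => (pr K : ℝ) ≤ R ∧ ¬ (pr K : ℝ) ≤ R / l₀), ch K A * hh K := by
  have h7' : (7 : ℝ) ≤ l₀ := by exact_mod_cast h7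
  have hl0 : (0 : ℝ) < l₀ := by linarith
  unfold Sg Sub
  rw [sum_filter, sum_filter]
  have hins : Q.powerset = (insert l₀ (Q.erase l₀)).powerset := by rw [insert_erase hl]
  rw [hins, Finset.sum_powerset_insert (notMem_erase l₀ Q), ← sum_add_distrib]
  refine sum_congr rfl fun K hK => ?_
  rw [mem_powerset] at hK
  have hK0 : l₀ ∉ K := fun h => notMem_erase l₀ Q (hK h)
  have e1 : (pr (insert l₀ K) : ℝ) = l₀ * pr K := by
    unfold pr
    rw [prod_insert hK0]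
    push_cast
    ring
  have e2 : ch (insert l₀ K) A * hh (insert l₀ K) = -(ch K A * hh K) := by
    unfold ch hh
    rw [prod_insert hK0, prod_insert hK0, if_pos hA]
    have : (l₀ : ℝ) - 2 ≠ 0 := by linarith
    field_simp
    ring
  have e3 : (pr (insert l₀ K) : ℝ) ≤ R ↔ (pr K : ℝ) ≤ R / l₀ := by
    rw [e1, le_div_iff₀ hl0, mul_comm]
  have e4 : (pr K : ℝ) ≤ R / l₀ → (pr K : ℝ) ≤ R := by
    intro h
    rw [le_div_iff₀ hl0] at h
    have : (0 : ℝ) ≤ pr K := Nat.cast_nonneg _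
    nlinarith
  by_cases h1 : (pr K : ℝ) ≤ R / l₀
  · rw [if_pos (e4 h1), if_pos (e3.2 h1), e2, if_neg (fun h => h.2 h1)]
    ring
  · by_cases h2 : (pr K : ℝ) ≤ R
    · rw [if_pos h2, if_neg (fun h => h1 (e3.1 h)), if_pos ⟨h2, h1⟩]
      ring
    · rw [if_neg h2, if_neg (fun h => h1 (e3.1 h)), if_neg (fun h => h2 h.1)]
      ring

theorem SL4 : SL4_stmt := by
  intro Q R hQ _
  have hQ7 : ∀ l ∈ Q, 7 ≤ l := fun l hl => (hQ l hl).2
  constructor
  · have h := SL4_total Q (Sub Q R) (fun _ => 1) 1 hQ7 (fun K hK => by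
      unfold Sub at hK
      rw [mem_filter, mem_powerset] at hK
      refine ⟨hK.1, fun _ _ => rfl, prod_eq_one fun l _ => by ring⟩)
    rw [one_mul] at h
    unfold Gs
    rw [← h]
    refine SL4_Ex_congr Q fun A _ => ?_
    have : (∏ l ∈ Q, if l ∈ A then (1 : ℝ) else 1) = 1 :=
      prod_eq_one fun l _ => by split_ifs <;> rfl
    rw [this, one_mul]
    rfl
  · intro l₀ hl₀
    have h7' : (7 : ℝ) ≤ l₀ := by exact_mod_cast hQ7 l₀ hl₀
    have hl0 : (0 : ℝ) < l₀ := by linarith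
    have h := SL4_total Q ((Q.erase l₀).powerset.filter
      (fun K => (pr K : ℝ) ≤ R ∧ ¬ (pr K : ℝ) ≤ R / l₀)) (fun l => if l = l₀ then 0 else 1)
      (2 / (l₀ : ℝ)) hQ7 (fun K hK => by
        rw [mem_filter, mem_powerset] at hK
        have hK0 : l₀ ∉ K := fun h => notMem_erase l₀ Q (hK.1 h)
        refine ⟨hK.1.trans (erase_subset _ _), fun l hl => if_neg (by rintro rfl; exact hK0 hl), ?_⟩
        rw [prod_eq_single_of_mem l₀ (mem_sdiff.2 ⟨hl₀, hK0⟩)]
        · rw [if_pos rfl]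
          ring
        · intro l _ hne
          rw [if_neg hne]
          ring)
    have e1 : Ex Q (fun A => if l₀ ∈ A then Sg Q R A ^ 2 else 0) =
        Ex Q (fun A => (∏ l ∈ Q, if l ∈ A then (1 : ℝ) else if l = l₀ then 0 else 1) *
          (∑ K ∈ (Q.erase l₀).powerset.filter
            (fun K => (pr K : ℝ) ≤ R ∧ ¬ (pr K : ℝ) ≤ R / l₀), ch K A * hh K) ^ 2) := by
      refine SL4_Ex_congr Q fun A _ => ?_
      by_cases hA : l₀ ∈ A
      · have : (∏ l ∈ Q, if l ∈ A then (1 : ℝ) else if l = l₀ then 0 else 1) = 1 := by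
          refine prod_eq_one fun l _ => ?_
          by_cases hl : l ∈ A
          · rw [if_pos hl]
          · rw [if_neg hl, if_neg (by rintro rfl; exact hl hA)]
        rw [if_pos hA, this, one_mul, SL4_Sg_mem Q R A l₀ hl₀ hA (hQ7 l₀ hl₀)]
      · have : (∏ l ∈ Q, if l ∈ A then (1 : ℝ) else if l = l₀ then 0 else 1) = 0 := by
          refine prod_eq_zero hl₀ ?_
          rw [if_neg hA, if_pos rfl]
        rw [if_neg hA, this, zero_mul]
    rw [e1, h]
    congr 1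
    unfold Gs Sub
    rw [sum_filter, sum_filter, sum_filter, ← sum_sub_distrib]
    refine sum_congr rfl fun K _ => ?_
    have e4 : (pr K : ℝ) ≤ R / l₀ → (pr K : ℝ) ≤ R := by
      intro h
      rw [le_div_iff₀ hl0] at h
      have : (0 : ℝ) ≤ pr K := Nat.cast_nonneg _
      nlinarith
    by_cases h1 : (pr K : ℝ) ≤ R / l₀
    · rw [if_pos (e4 h1), if_pos h1, if_neg (fun h => h.2 h1)]
      ring
    · by_cases h2 : (pr K : ℝ) ≤ R
      · rw [if_pos h2, if_neg h1, if_pos ⟨h2, h1⟩]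
        ring
      · rw [if_neg h2, if_neg h1, if_neg (fun h => h2 h.1)]
        ring

end GD
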